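import Pool.Agent.W229.HD.Stm
import Pool.Agent.H772R2.NSR.Ode

/-!
Project HD: the equations with finitely many modes.  The structure is that of
`Pool.Agent.W590.GalODE`.
-/

set_option autoImplicit false

open MeasureTheory Set Filter Topology
open scoped ContDiff InnerProductSpace NNReal

namespace Pool.Agent.W240.HD

open Pool.Agent.W229.HD

/-! ### algebra of one frequency -/

theorem cj_apply (v : E3) (j : Fin 3) : cj v j = star (v j) := rfl

theorem cj_add (v w : E3) : cj (v + w) = cj v + cj w := by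
  ext j; simp [cj_apply]

theorem cj_sub (v w : E3) : cj (v - w) = cj v - cj w := by
  ext j; simp [cj_apply]

theorem cj_neg (v : E3) : cj (-v) = -cj v := by
  ext j; simp [cj_apply]

theorem cj_smul (c : ℂ) (v : E3) : cj (c • v) = star c • cj v := by
  ext j; simp [cj_apply]

theorem cj_rsmul (c : ℝ) (v : E3) : cj (c • v) = c • cj v := by
  ext j; simp [cj_apply]

theorem cj_zero : cj 0 = 0 := by
  ext j; simp [cj_apply]

theorem cj_cj (v : E3) : cj (cj v) = v := by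
  ext j; simp [cj_apply]

theorem cj_sum {ι : Type*} (s : Finset ι) (f : ι → E3) :
    cj (∑ i ∈ s, f i) = ∑ i ∈ s, cj (f i) := by
  classical
  induction s using Finset.induction_on with
  | empty => simp [cj_zero]
  | insert a s ha ih => rw [Finset.sum_insert ha, Finset.sum_insert ha, cj_add, ih]

theorem nm_neg (k : K3) : nm (-k) = nm k := by simp [nm]

theorem nm_nonneg (k : K3) : 0 ≤ nm k := Real.sqrt_nonneg _

theorem kc_neg (k : K3) : kc (-k) = -kc k := by
  ext j; simp [kc]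

theorem dt_neg_right (v w : E3) : dt v (-w) = -dt v w := by simp [dt]

theorem star_dt (v : E3) (k : K3) : star (dt v (kc k)) = dt (cj v) (kc k) := by
  simp [dt, cj_apply, kc]

theorem dt_zero_left (w : E3) : dt 0 w = 0 := by simp [dt]

theorem inner_dt (v w : E3) : ⟪v, w⟫_ℂ = dt w (cj v) := by
  rw [PiLp.inner_apply]
  unfold dt
  refine Finset.sum_congr rfl fun j _ => ?_
  rw [cj_apply]
  rfl

theorem rsmul_eq (c : ℝ) (v : E3) : c • v = (c : ℂ) • v := by
  ext j; simp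

section dec
variable (hdec : S_DEC) {Λ : Bool → Set K3} (hΛ : Modes Λ)
include hdec hΛ

theorem dec_add (k : K3) (v w : E3) : dec Λ k (v + w) = dec Λ k v + dec Λ k w :=
  (hdec Λ hΛ k v w 0 true).1

theorem dec_smul (k : K3) (c : ℂ) (v : E3) : dec Λ k (c • v) = c • dec Λ k v :=
  (hdec Λ hΛ k v 0 c true).2.1

theorem dec_div (k : K3) (v : E3) : dt (kc k) (dec Λ k v) = 0 :=
  (hdec Λ hΛ k v 0 0 true).2.2.1

theorem dec_dec (k : K3) (v : E3) : dec Λ k (dec Λ k v) = dec Λ k v :=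
  (hdec Λ hΛ k v 0 0 true).2.2.2.1

theorem dec_cj (k : K3) (v : E3) : dec Λ (-k) (cj v) = cj (dec Λ k v) :=
  (hdec Λ hΛ k v 0 0 true).2.2.2.2.1

theorem dec_inner (k : K3) (v w : E3) : ⟪dec Λ k v, w⟫_ℂ = ⟪v, dec Λ k w⟫_ℂ :=
  (hdec Λ hΛ k v w 0 true).2.2.2.2.2.1

theorem dec_out (k : K3) (v : E3) (h1 : k ∉ Λ true) (h2 : k ∉ Λ false) : dec Λ k v = 0 :=
  (hdec Λ hΛ k v 0 0 true).2.2.2.2.2.2.2.1 h1 h2

theorem dec_rsmul (k : K3) (c : ℝ) (v : E3) : dec Λ k (c • v) = c • dec Λ k v := by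
  rw [rsmul_eq, rsmul_eq, dec_smul hdec hΛ]

theorem dec_zero (k : K3) : dec Λ k 0 = 0 := by
  have := dec_smul hdec hΛ k 0 0
  rwa [zero_smul, zero_smul] at this

theorem dec_neg (k : K3) (v : E3) : dec Λ k (-v) = -dec Λ k v := by
  have := dec_smul hdec hΛ k (-1) v
  rwa [neg_one_smul, neg_one_smul] at this

theorem dec_sub (k : K3) (v w : E3) : dec Λ k (v - w) = dec Λ k v - dec Λ k w := by
  rw [sub_eq_add_neg, dec_add hdec hΛ, dec_neg hdec hΛ, sub_eq_add_neg]

theorem contDiff_dec (k : K3) : ContDiff ℝ ∞ (dec Λ k) := by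
  let L : E3 →ₗ[ℝ] E3 :=
    { toFun := dec Λ k
      map_add' := dec_add hdec hΛ k
      map_smul' := fun c v => dec_rsmul hdec hΛ k c v }
  exact (LinearMap.toContinuousLinearMap L).contDiff

end dec

/-! ### the space -/

abbrev FS (S : Finset K3) := PiLp 2 (fun _ : S => E3)

/-- extension by zero -/
noncomputable def ext (S : Finset K3) (x : FS S) (k : K3) : E3 := if h : k ∈ S then x ⟨k, h⟩ else 0

theorem ext_mem {S : Finset K3} (x : FS S) {k : K3} (h : k ∈ S) : ext S x k = x ⟨k, h⟩ := by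
  simp [ext, h]

theorem ext_not_mem {S : Finset K3} (x : FS S) {k : K3} (h : k ∉ S) : ext S x k = 0 := by
  simp [ext, h]

theorem ext_add {S : Finset K3} (x y : FS S) (k : K3) :
    ext S (x + y) k = ext S x k + ext S y k := by
  by_cases h : k ∈ S
  · simp [ext_mem _ h]
  · simp [ext_not_mem _ h]

theorem ext_smul {S : Finset K3} (c : ℝ) (x : FS S) (k : K3) :
    ext S (c • x) k = c • ext S x k := by
  by_cases h : k ∈ S
  · simp [ext_mem _ h]
  · simp [ext_not_mem _ h]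

theorem ext_zero {S : Finset K3} (k : K3) :
    ext S (0 : FS S) k = 0 := by
  by_cases h : k ∈ S
  · simp [ext_mem _ h]
  · simp [ext_not_mem _ h]

/-- the phase space -/
noncomputable def W (hdec : S_DEC) {Λ : Bool → Set K3} (hΛ : Modes Λ) (S : Finset K3) :
    Submodule ℝ (FS S) where
  carrier := {x | (∀ k, ext S x (-k) = cj (ext S x k)) ∧ ∀ k, dec Λ k (ext S x k) = ext S x k}
  add_mem' := by
    rintro x y ⟨hx1, hx2⟩ ⟨hy1, hy2⟩
    refine ⟨fun k => ?_, fun k => ?_⟩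
    · rw [ext_add, ext_add, cj_add, hx1, hy1]
    · rw [ext_add, dec_add hdec hΛ, hx2, hy2]
  zero_mem' := by
    refine ⟨fun k => ?_, fun k => ?_⟩
    · rw [ext_zero, ext_zero, cj_zero]
    · rw [ext_zero, dec_zero hdec hΛ]
  smul_mem' := by
    rintro c x ⟨hx1, hx2⟩
    refine ⟨fun k => ?_, fun k => ?_⟩
    · rw [ext_smul, ext_smul, cj_rsmul, hx1]
    · rw [ext_smul, dec_rsmul hdec hΛ, hx2]

/-- the right hand side -/
noncomputable def rhs (α ν : ℝ) (Λ : Bool → Set K3) (S : Finset K3) (a : K3 → E3) (k : K3) : E3 :=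
  -(((ν * nm k ^ (2 * α) : ℝ) : ℂ) • a k) - dec Λ k (cv S a k)

theorem cv_neg {S : Finset K3} (hS : Fr S) {a : K3 → E3} (ha : ∀ k, a (-k) = cj (a k)) (k : K3) :
    cv S a (-k) = cj (cv S a k) := by
  unfold cv
  rw [cj_sum]
  refine Finset.sum_bij' (fun l _ => -l) (fun l _ => -l) (fun l hl => hS.neg l hl)
    (fun l hl => hS.neg l hl) (fun l _ => neg_neg l) (fun l _ => neg_neg l) ?_
  intro l hl
  have e1 : -k - l = -(k - -l) := by abel
  have e2 : a l = cj (a (-l)) := by rw [← ha, neg_neg]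
  rw [e1, ha (k - -l), cj_smul, e2, kc_neg, dt_neg_right, ← star_dt]
  congr 1
  simp only [star_mul', Complex.star_def, Complex.conj_I]
  ring

section ode
variable (hdec : S_DEC) {Λ : Bool → Set K3} (hΛ : Modes Λ) (S : Finset K3) (α ν : ℝ)

/-- the right hand side as an element of the space of families -/
noncomputable def G (p : W hdec hΛ S) : FS S :=
  WithLp.toLp 2 fun k : S => rhs α ν Λ S (ext S p) k

theorem ext_G (p : W hdec hΛ S) {k : K3} (hk : k ∈ S) :
    ext S (G hdec hΛ S α ν p) k = rhs α ν Λ S (ext S p) k := by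
  rw [ext_mem _ hk]; rfl

theorem G_mem (hS : Fr S) (p : W hdec hΛ S) : G hdec hΛ S α ν p ∈ W hdec hΛ S := by
  obtain ⟨x, hx1, hx2⟩ := p
  refine ⟨fun k => ?_, fun k => ?_⟩
  · by_cases hk : k ∈ S
    · rw [ext_G _ _ _ _ _ _ hk, ext_G _ _ _ _ _ _ (hS.neg k hk)]
      unfold rhs
      rw [cj_sub, cj_neg, cj_smul, cv_neg hS hx1, dec_cj hdec hΛ, hx1, nm_neg]
      congr 3
      simp
    · have hk' : -k ∉ S := fun h => hk (by simpa using hS.neg _ h)
      rw [ext_not_mem _ hk, ext_not_mem _ hk', cj_zero]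
  · by_cases hk : k ∈ S
    · rw [ext_G _ _ _ _ _ _ hk]
      unfold rhs
      rw [dec_sub hdec hΛ, dec_neg hdec hΛ, dec_smul hdec hΛ, hx2, dec_dec hdec hΛ]
    · rw [ext_not_mem _ hk, dec_zero hdec hΛ]

theorem contDiff_ext (k : K3) :
    ContDiff ℝ ∞ (fun p : W hdec hΛ S => ext S (p : FS S) k) := by
  by_cases hk : k ∈ S
  · simp only [ext_mem _ hk]
    exact (contDiff_piLp 2).mp (W hdec hΛ S).subtypeL.contDiff ⟨k, hk⟩
  · simp only [ext_not_mem _ hk]
    exact contDiff_const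

theorem contDiff_dt {E : Type*} [NormedAddCommGroup E] [NormedSpace ℝ E] {f : E → E3}
    (hf : ContDiff ℝ ∞ f) (w : E3) : ContDiff ℝ ∞ (fun p => dt (f p) w) := by
  unfold dt
  refine ContDiff.sum fun j _ => ?_
  exact ((contDiff_piLp 2).mp hf j).mul contDiff_const

theorem contDiff_cv (k : K3) :
    ContDiff ℝ ∞ (fun p : W hdec hΛ S => cv S (ext S (p : FS S)) k) := by
  unfold cv
  refine ContDiff.sum fun l _ => ?_
  refine ContDiff.fun_smul ?_ (contDiff_ext hdec hΛ S _)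
  exact contDiff_const.mul (contDiff_dt (contDiff_ext hdec hΛ S l) _)

theorem contDiff_G : ContDiff ℝ ∞ (G hdec hΛ S α ν) := by
  refine (contDiff_piLp 2).mpr fun k => ?_
  show ContDiff ℝ ∞ (fun p : W hdec hΛ S => rhs α ν Λ S (ext S (p : FS S)) (k : K3))
  unfold rhs
  refine ContDiff.sub (ContDiff.neg ?_) ?_
  · exact ContDiff.fun_smul contDiff_const (contDiff_ext hdec hΛ S _)
  · exact (contDiff_dec hdec hΛ _).comp (contDiff_cv hdec hΛ S _)

/-! ### the energy estimate -/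

theorem fld_of_mem {x : FS S} (hx : x ∈ W hdec hΛ S) : Fld S (ext S x) :=
  ⟨fun _ h => ext_not_mem x h, hx.1, fun k => by
    rw [← hx.2 k]
    exact dec_div hdec hΛ k _⟩

include hdec hΛ in
theorem inner_rhs_le (hν : 0 < ν) {a : K3 → E3} {k : K3} (ha : dec Λ k (a k) = a k)
    (hr : a (-k) = cj (a k)) :
    (⟪rhs α ν Λ S a k, a k⟫_ℂ).re ≤ -(dt (cv S a k) (a (-k))).re := by
  unfold rhs
  rw [inner_sub_left, inner_neg_left, inner_smul_left, dec_inner hdec hΛ, ha]
  have e2 : (⟪cv S a k, a k⟫_ℂ).re = (dt (cv S a k) (a (-k))).re := by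
    rw [← inner_conj_symm, Complex.conj_re, inner_dt, hr]
  have e3 : 0 ≤ ((starRingEnd ℂ) (((ν * nm k ^ (2 * α) : ℝ) : ℂ)) * ⟪a k, a k⟫_ℂ).re := by
    rw [Complex.conj_ofReal, Complex.re_ofReal_mul]
    refine mul_nonneg (mul_nonneg hν.le (Real.rpow_nonneg (nm_nonneg k) _)) ?_
    exact inner_self_nonneg (𝕜 := ℂ) (x := a k)
  rw [Complex.sub_re, Complex.neg_re, e2]
  linarith

theorem inner_G_le (hene : S_ENE) (hS : Fr S) (hν : 0 < ν) (x : W hdec hΛ S) :
    ⟪G hdec hΛ S α ν x, (x : FS S)⟫_ℝ ≤ 0 := by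
  have h1 : ⟪G hdec hΛ S α ν x, (x : FS S)⟫_ℝ
      = ∑ k ∈ S, (⟪rhs α ν Λ S (ext S x) k, ext S x k⟫_ℂ).re := by
    rw [PiLp.inner_apply, ← Finset.sum_coe_sort S]
    refine Finset.sum_congr rfl fun k _ => ?_
    rw [ext_mem (x : FS S) k.2]
    rfl
  have hF : Fld S (ext S (x : FS S)) := fld_of_mem hdec hΛ S x.2
  have h2 := hene S _ hS hF
  rw [h1]
  calc ∑ k ∈ S, (⟪rhs α ν Λ S (ext S x) k, ext S x k⟫_ℂ).re
      ≤ ∑ k ∈ S, (-(dt (cv S (ext S x) k) (ext S x (-k))).re) := by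
        refine Finset.sum_le_sum fun k hk => ?_
        exact inner_rhs_le hdec hΛ S α ν hν (x.2.2 k) (x.2.1 k)
    _ = -(Pr S 0 (ext S x)) := by
        unfold Pr
        rw [Finset.sum_neg_distrib, Complex.re_sum]
        congr 1
        refine Finset.sum_congr rfl fun k _ => ?_
        rw [Real.rpow_zero, Complex.ofReal_one, one_mul]
    _ = 0 := by rw [h2, neg_zero]

end ode

theorem lip_of_contDiff {E : Type*} [NormedAddCommGroup E] [NormedSpace ℝ E] [ProperSpace E]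
    {X : E → E} (hX : ContDiff ℝ ∞ X) (R : ℝ) :
    ∃ C : ℝ≥0, LipschitzOnWith C X (Metric.closedBall 0 R) := by
  have hcf : ContinuousOn (fun p => ‖fderiv ℝ X p‖) (Metric.closedBall (0 : E) R) :=
    (Continuous.norm (hX.continuous_fderiv (by simp))).continuousOn
  obtain ⟨C, hC'⟩ := (isCompact_closedBall (0 : E) R).exists_bound_of_continuousOn hcf
  have hC : ∀ p ∈ Metric.closedBall (0 : E) R, ‖fderiv ℝ X p‖ ≤ C := fun p hp =>
    (le_abs_self _).trans (hC' p hp)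
  refine ⟨Real.toNNReal C, ?_⟩
  refine Convex.lipschitzOnWith_of_nnnorm_fderiv_le (𝕜 := ℝ) ?_ ?_ (convex_closedBall _ _)
  · intro p _
    exact (hX.differentiable (by simp)).differentiableAt
  · intro p hp
    have := hC p hp
    rw [← NNReal.coe_le_coe, coe_nnnorm]
    exact this.trans (Real.le_coe_toNNReal C)

/-- global solutions of autonomous equations with a one sided bound -/
theorem exists_forever {E : Type*} [NormedAddCommGroup E] [InnerProductSpace ℝ E]
    [CompleteSpace E] [ProperSpace E] {X : E → E} (hX : ContDiff ℝ ∞ X)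
    (hen : ∀ x, ⟪X x, x⟫_ℝ ≤ 0) (x0 : E) :
    ∃ x : ℝ → E, x 0 = x0 ∧ (∀ t, 0 ≤ t → HasDerivWithinAt x (X (x t)) (Ici 0) t) ∧
      ∀ t, 0 ≤ t → ‖x t‖ ≤ ‖x0‖ := by
  have h1 : ∀ n : ℕ, ∃ x : ℝ → E, x 0 = x0 ∧
      (∀ t ∈ Icc (0 : ℝ) n, HasDerivWithinAt x (X (x t)) (Icc 0 (n : ℝ)) t) ∧
      ∀ t ∈ Icc (0 : ℝ) n, ‖x t‖ ≤ ‖x0‖ := by
    intro n
    obtain ⟨x, hx0, hx, hb⟩ := H772R2.NSR.exists_global (fun _ => X) (Nat.cast_nonneg n)
      (fun R => by
        obtain ⟨C, hC⟩ := lip_of_contDiff hX R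
        exact ⟨C, fun t _ => hC⟩)
      (fun y => continuousOn_const) x0 le_rfl (fun t _ y => hen y)
    refine ⟨x, hx0, hx, fun t ht => ?_⟩
    have := hb t ht
    rw [mul_zero, zero_mul, add_zero] at this
    exact (pow_le_pow_iff_left₀ (norm_nonneg _) (norm_nonneg _) (by norm_num)).mp this
  choose x hx0 hx hb using h1
  obtain ⟨C, hC⟩ := lip_of_contDiff hX ‖x0‖
  have heq : ∀ n m : ℕ, n ≤ m → EqOn (x n) (x m) (Icc 0 (n : ℝ)) := by
    intro n m hnm
    have hnm' : (n : ℝ) ≤ m := by exact_mod_cast hnm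
    have hsub : Icc (0 : ℝ) n ⊆ Icc 0 (m : ℝ) := Icc_subset_Icc_right hnm'
    refine ODE_solution_unique_of_mem_Icc_right (v := fun _ => X)
      (s := fun _ => Metric.closedBall 0 ‖x0‖) (K := C) (fun t _ => hC)
      (fun t ht => (hx n t ht).continuousWithinAt) ?_ ?_
      (fun t ht => ((hx m t (hsub ht)).continuousWithinAt).mono hsub) ?_ ?_ ?_
    · intro t ht
      refine (hx n t ⟨ht.1, ht.2.le⟩).mono_of_mem_nhdsWithin ?_
      exact mem_of_superset (Icc_mem_nhdsGE ht.2) (Icc_subset_Icc_left ht.1)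
    · intro t ht
      rw [mem_closedBall_zero_iff]
      exact hb n t ⟨ht.1, ht.2.le⟩
    · intro t ht
      refine (hx m t ⟨ht.1, ht.2.le.trans hnm'⟩).mono_of_mem_nhdsWithin ?_
      exact mem_of_superset (Icc_mem_nhdsGE (ht.2.trans_le hnm')) (Icc_subset_Icc_left ht.1)
    · intro t ht
      rw [mem_closedBall_zero_iff]
      exact hb m t ⟨ht.1, ht.2.le.trans hnm'⟩
    · rw [hx0, hx0]
  have hfl : ∀ t : ℝ, 0 ≤ t → ∀ n : ℕ, t ≤ n → x (⌈t⌉₊) t = x n t := by
    intro t ht n htn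
    exact heq _ _ (Nat.ceil_le.2 htn) ⟨ht, Nat.le_ceil t⟩
  refine ⟨fun t => x (⌈t⌉₊) t, ?_, ?_, ?_⟩
  · simp [hx0]
  · intro t ht
    set n : ℕ := ⌈t⌉₊ + 1 with hn
    have htn : t < n := by
      rw [hn]; push_cast
      exact (Nat.le_ceil t).trans_lt (lt_add_one _)
    have h2 : HasDerivWithinAt (x n) (X (x n t)) (Ici 0) t := by
      refine (hx n t ⟨ht, htn.le⟩).mono_of_mem_nhdsWithin ?_
      rw [mem_nhdsWithin]
      exact ⟨Iio (n : ℝ), isOpen_Iio, htn, fun y hy => ⟨hy.2, le_of_lt hy.1⟩⟩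
    have h3 : x (⌈t⌉₊) t = x n t := hfl t ht n htn.le
    show HasDerivWithinAt (fun t => x (⌈t⌉₊) t) (X (x (⌈t⌉₊) t)) (Ici 0) t
    rw [h3]
    refine h2.congr_of_eventuallyEq ?_ h3
    rw [eventuallyEq_nhdsWithin_iff]
    filter_upwards [Iio_mem_nhds htn] with y hy hy0
    exact hfl y hy0 n (le_of_lt hy)
  · intro t ht
    exact hb _ t ⟨ht, Nat.le_ceil t⟩

theorem ode (hdec : S_DEC) (hene : S_ENE) : S_ODE := by
  intro α ν Λ hν hΛ hfin a₀ ha₀
  classical
  set S : Finset K3 := (hfin true).toFinset ∪ (hfin false).toFinset with hSdef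
  have hmem : ∀ k, k ∈ S ↔ k ∈ Λ true ∨ k ∈ Λ false := by
    intro k
    rw [hSdef, Finset.mem_union, Set.Finite.mem_toFinset, Set.Finite.mem_toFinset]
  have hS : Fr S := by
    refine ⟨fun h => ?_, fun k hk => ?_⟩
    · rcases (hmem 0).1 h with h | h
      · exact hΛ.zero _ h
      · exact hΛ.zero _ h
    · rcases (hmem k).1 hk with h | h
      · exact (hmem _).2 (Or.inl (hΛ.neg _ _ h))
      · exact (hmem _).2 (Or.inr (hΛ.neg _ _ h))
  have hout : ∀ k, k ∉ S → ∀ v, dec Λ k v = 0 := by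
    intro k hk v
    rw [hmem, not_or] at hk
    exact dec_out hdec hΛ k v hk.1 hk.2
  let P : FS S →L[ℝ] W hdec hΛ S := (W hdec hΛ S).orthogonalProjectionOnto
  let X : W hdec hΛ S → W hdec hΛ S := fun p => P (G hdec hΛ S α ν p)
  have hX : ContDiff ℝ ∞ X := P.contDiff.comp (contDiff_G hdec hΛ S α ν)
  have hXG : ∀ p, (X p : FS S) = G hdec hΛ S α ν p := by
    intro p
    have := (W hdec hΛ S).starProjection_eq_self_iff.mpr (G_mem hdec hΛ S α ν hS p)
    exact this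
  -- the initial value
  let y0 : FS S := WithLp.toLp 2 fun k : S => a₀ k
  have hy0 : ext S y0 = a₀ := by
    funext k
    by_cases hk : k ∈ S
    · rw [ext_mem _ hk]
    · rw [ext_not_mem _ hk, ← ha₀.mem k, hout k hk]
  have hy0W : y0 ∈ W hdec hΛ S := by
    refine ⟨fun k => ?_, fun k => ?_⟩
    · rw [hy0]; exact ha₀.real k
    · rw [hy0]; exact ha₀.mem k
  obtain ⟨x, hx0, hx, hb⟩ := exists_forever hX
    (by
      intro y
      have h1 : ⟪X y, y⟫_ℝ = ⟪G hdec hΛ S α ν y, (y : FS S)⟫_ℝ := by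
        rw [← hXG]; rfl
      rw [h1]
      exact inner_G_le hdec hΛ S α ν hene hS hν y)
    (⟨y0, hy0W⟩ : W hdec hΛ S)
  have hnl : ∀ t k, nl (ext S (x t : FS S)) k = cv S (ext S (x t : FS S)) k := by
    intro t k
    unfold nl cv
    refine tsum_eq_sum fun l hl => ?_
    rw [ext_not_mem _ hl, dt_zero_left, mul_zero, zero_smul]
  refine ⟨fun t k => ext S (x t : FS S) k, ?_, ?_, ?_, ?_⟩
  · funext k
    show ext S (x 0 : FS S) k = a₀ k
    rw [hx0]
    exact congrFun hy0 k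
  · intro t _
    exact ⟨(x t).2.1, (x t).2.2⟩
  · intro T m
    refine ⟨(∑ k ∈ S, nm k ^ m) * ‖(⟨y0, hy0W⟩ : W hdec hΛ S)‖, fun t ht k => ?_⟩
    have hnn : ∀ k ∈ S, 0 ≤ nm k ^ m := fun k _ => pow_nonneg (nm_nonneg k) m
    by_cases hk : k ∈ S
    · refine mul_le_mul (Finset.single_le_sum hnn hk) ?_ (norm_nonneg _)
        (Finset.sum_nonneg hnn)
      refine le_trans ?_ (hb t ht.1)
      simp only [ext_mem _ hk]
      exact PiLp.norm_apply_le (x t : FS S) _
    · simp only [ext_not_mem _ hk, norm_zero, mul_zero]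
      exact mul_nonneg (Finset.sum_nonneg hnn) (norm_nonneg _)
  · intro t ht k
    have hgoal : -(((ν * nm k ^ (2 * α) : ℝ) : ℂ) • ext S (x t : FS S) k) -
        dec Λ k (nl (fun k => ext S (x t : FS S) k) k) = rhs α ν Λ S (ext S (x t : FS S)) k := by
      unfold rhs
      rw [← hnl]
    show HasDerivWithinAt (fun τ => ext S (x τ : FS S) k)
      (-(((ν * nm k ^ (2 * α) : ℝ) : ℂ) • ext S (x t : FS S) k) -
        dec Λ k (nl (fun k => ext S (x t : FS S) k) k)) (Ici 0) t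
    rw [hgoal]
    by_cases hk : k ∈ S
    · have h1 : HasDerivWithinAt (fun t => (x t : FS S)) (G hdec hΛ S α ν (x t)) (Ici 0) t := by
        rw [← hXG]
        exact ((W hdec hΛ S).subtypeL.hasFDerivAt.comp_hasDerivWithinAt t (hx t ht))
      have h2 := (PiLp.proj (𝕜 := ℝ) 2 (fun _ : S => E3)
        ⟨k, hk⟩).hasFDerivAt.comp_hasDerivWithinAt t h1
      simp only [ext_mem _ hk]
      exact h2
    · have h0 : rhs α ν Λ S (ext S (x t : FS S)) k = 0 := by
        unfold rhs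
        rw [ext_not_mem _ hk, hout k hk, smul_zero, neg_zero, sub_zero]
      rw [h0]
      simp only [ext_not_mem _ hk]
      exact hasDerivWithinAt_const _ _ _

end Pool.Agent.W240.HD
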